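import Mathlib

set_option autoImplicit false

namespace Pool.Agent.Results.MP_af9f8b_co.ChromaticOrder

/-- The Euclidean plane. -/
abbrev Plane : Type := EuclideanSpace ℝ (Fin 2)

/-- The tangent graph of the discs with centres the points of `A` and radii `r a`: two distinct
centres are adjacent when the discs are externally tangent. -/
def tangentGraph (A : Finset Plane) (r : Plane → ℝ) : SimpleGraph A where
  Adj a b := a ≠ b ∧ dist (a : Plane) (b : Plane) = r a + r b
  symm := ⟨fun a b h => ⟨h.1.symm, by rw [dist_comm, h.2, add_comm]⟩⟩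
  loopless := ⟨fun a h => h.1 rfl⟩

/-- The largest chromatic number of a tangent graph in the plane with `n` vertices. -/
noncomputable def chi (n : ℕ) : ℕ∞ :=
  ⨆ (A : Finset Plane) (r : Plane → ℝ) (_ : A.card = n) (_ : ∀ a ∈ A, 0 < r a),
    (tangentGraph A r).chromaticNumber

/-- Sanity check: the adjacency says that the closed discs meet and their interiors are disjoint. -/
theorem adj_iff (a b : Plane) (s t : ℝ) (hs : 0 < s) (ht : 0 < t) :
    dist a b = s + t ↔ (Metric.closedBall a s ∩ Metric.closedBall b t).Nonempty ∧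
      Disjoint (interior (Metric.closedBall a s)) (interior (Metric.closedBall b t)) := by
  rw [interior_closedBall a hs.ne', interior_closedBall b ht.ne', disjoint_ball_ball_iff hs ht,
    ← Set.not_disjoint_iff_nonempty_inter, disjoint_closedBall_closedBall_iff hs.le ht.le]
  constructor
  · intro h; exact ⟨by rw [h]; exact lt_irrefl _, h.ge⟩
  · rintro ⟨h1, h2⟩; exact le_antisymm (not_lt.1 h1) h2

/-- The recursion: a separator class of `M` colours and parts of at most half the size. -/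
theorem abstract_color {V : Type} (Adj : V → V → Prop) (M : ℕ) (S₀ : Finset V)
    (hsep : ∀ S ⊆ S₀, ∃ (X : V → Prop) (cX : V → ℕ) (L : Type) (f : V → L),
      (∀ v ∈ S, X v → cX v < M) ∧
      (∀ u ∈ S, ∀ v ∈ S, X u → X v → Adj u v → cX u ≠ cX v) ∧
      (∀ u ∈ S, ∀ v ∈ S, ¬ X u → ¬ X v → Adj u v → f u = f v) ∧
      (∀ i : L, ∀ P : Finset V, (∀ v ∈ P, v ∈ S ∧ ¬ X v ∧ f v = i) → 2 * P.card ≤ S.card)) :
    ∀ t : ℕ, ∀ S ⊆ S₀, S.card < 2 ^ t → ∃ c : V → ℕ, (∀ v ∈ S, c v < M * t) ∧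
      ∀ u ∈ S, ∀ v ∈ S, Adj u v → c u ≠ c v := by
  classical
  intro t
  induction t with
  | zero =>
    intro S _ hS
    have h0 : S = ∅ := by
      rw [← Finset.card_eq_zero]
      simpa using hS
    subst h0
    exact ⟨fun _ => 0, by simp, by simp⟩
  | succ t ih =>
    intro S hS hcard
    obtain ⟨X, cX, L, f, h1, h2, h3, h4⟩ := hsep S hS
    have hpart : ∀ i : L, ∃ c : V → ℕ, (∀ v ∈ S, ¬ X v → f v = i → c v < M * t) ∧
        ∀ u ∈ S, ∀ v ∈ S, ¬ X u → ¬ X v → f u = i → f v = i → Adj u v → c u ≠ c v := by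
      intro i
      obtain ⟨c, hc1, hc2⟩ := ih (S.filter (fun v => ¬ X v ∧ f v = i))
        ((Finset.filter_subset _ _).trans hS) (by
          have h5 := h4 i (S.filter (fun v => ¬ X v ∧ f v = i)) (fun v hv => by
            rw [Finset.mem_filter] at hv; exact hv)
          rw [pow_succ] at hcard
          omega)
      refine ⟨c, ?_, ?_⟩
      · intro v hv hX hf
        exact hc1 v (Finset.mem_filter.2 ⟨hv, hX, hf⟩)
      · intro u hu v hv hXu hXv hfu hfv hadj
        exact hc2 u (Finset.mem_filter.2 ⟨hu, hXu, hfu⟩) v (Finset.mem_filter.2 ⟨hv, hXv, hfv⟩) hadj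
    choose c hc1 hc2 using hpart
    refine ⟨fun v => if X v then M * t + cX v else c (f v) v, ?_, ?_⟩
    · intro v hv
      by_cases hX : X v
      · simp only [hX, if_true]
        have := h1 v hv hX
        rw [Nat.mul_succ]
        omega
      · simp only [hX, if_false]
        have := hc1 (f v) v hv hX rfl
        rw [Nat.mul_succ]
        omega
    · intro u hu v hv hadj
      by_cases hXu : X u <;> by_cases hXv : X v
      · simp only [hXu, hXv, if_true]
        have := h2 u hu v hv hXu hXv hadj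
        omega
      · simp only [hXu, hXv, if_true, if_false]
        have := hc1 (f v) v hv hXv rfl
        omega
      · simp only [hXu, hXv, if_true, if_false]
        have := hc1 (f u) u hu hXu rfl
        omega
      · simp only [hXu, hXv, if_false]
        have h5 := h3 u hu v hv hXu hXv hadj
        rw [h5]
        exact hc2 (f v) u hu v hv hXu hXv h5 rfl hadj

/-- Index of the cell of `x` in the grid of mesh `s * 3 ^ k` shifted by `α / 2` mesh sizes. -/
noncomputable def q (s : ℝ) (α k : ℕ) (x : ℝ) : ℤ := ⌊x / (s * 3 ^ k) + (α : ℝ) / 2⌋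

theorem q_mono {s : ℝ} (hs : 0 < s) (α k : ℕ) {x y : ℝ} (h : x ≤ y) : q s α k x ≤ q s α k y := by
  unfold q
  apply Int.floor_le_floor
  gcongr

theorem q_succ {s : ℝ} (hs : 0 < s) (α k : ℕ) (x : ℝ) :
    q s α (k + 1) x = (q s α k x + α) / 3 := by
  unfold q
  set w : ℝ := x / (s * 3 ^ k) + (α : ℝ) / 2 with hw
  have h1 : x / (s * 3 ^ (k + 1)) + (α : ℝ) / 2 = (w + α) / 3 := by
    rw [hw, pow_succ]
    field_simp
    ring
  rw [h1]
  set m : ℤ := ⌊w⌋ with hm
  have h2 : (m : ℝ) ≤ w := Int.floor_le w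
  have h3 : w < m + 1 := Int.lt_floor_add_one w
  set z : ℤ := (m + α) / 3 with hz
  have h4 : 3 * z ≤ m + α := by omega
  have h5 : m + α + 1 ≤ 3 * z + 3 := by omega
  have h4' : 3 * (z : ℝ) ≤ m + α := by exact_mod_cast h4
  have h5' : (m : ℝ) + α + 1 ≤ 3 * z + 3 := by exact_mod_cast h5
  rw [Int.floor_eq_iff]
  constructor
  · rw [le_div_iff₀ (by norm_num)]
    linarith
  · rw [div_lt_iff₀ (by norm_num)]
    linarith

theorem q_nest {s : ℝ} (hs : 0 < s) (α : ℕ) {k l : ℕ} (hkl : k ≤ l) {x y : ℝ}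
    (h : q s α k x = q s α k y) : q s α l x = q s α l y := by
  induction l, hkl using Nat.le_induction with
  | base => exact h
  | succ l _ ih => rw [q_succ hs, q_succ hs, ih]

/-- A short interval lies in a cell of one of the two grids. -/
theorem q_shift {s r : ℝ} (hs : 0 < s) (hr : 0 < r) {k : ℕ} (h : 4 * r < s * 3 ^ k) (x : ℝ) :
    ∃ α : ℕ, α < 2 ∧ q s α k (x - r) = q s α k (x + r) := by
  have hσ : 0 < s * 3 ^ k := by positivity
  set u : ℝ := (x - r) / (s * 3 ^ k) with hu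
  set v : ℝ := (x + r) / (s * 3 ^ k) with hv
  have hvu : v - u < 1 / 2 := by
    rw [hv, hu, ← sub_div, div_lt_iff₀ hσ]
    linarith
  have huv : u ≤ v := by
    rw [hv, hu]
    gcongr
    linarith
  by_cases hf : ⌊u⌋ = ⌊v⌋
  · refine ⟨0, by norm_num, ?_⟩
    simp only [q, Nat.cast_zero, zero_div, add_zero]
    exact hf
  · refine ⟨1, by norm_num, ?_⟩
    simp only [q, Nat.cast_one]
    have h1 : ⌊u⌋ < ⌊v⌋ := lt_of_le_of_ne (Int.floor_le_floor huv) hf
    have h2 : (⌊v⌋ : ℝ) ≤ v := Int.floor_le v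
    have h3 : u < ⌊u⌋ + 1 := Int.lt_floor_add_one u
    have h4 : (⌊u⌋ : ℝ) + 1 ≤ ⌊v⌋ := by exact_mod_cast h1
    have h5 : ⌊u + 1 / 2⌋ = ⌊v⌋ := by
      rw [Int.floor_eq_iff]
      constructor <;> linarith
    have h6 : ⌊v + 1 / 2⌋ = ⌊v⌋ := by
      rw [Int.floor_eq_iff]
      constructor <;> linarith
    rw [← hu, ← hv, h5, h6]

/-- The level of a disc of radius `r`. -/
theorem exists_level {s r : ℝ} (hs : 0 < s) (hsr : s ≤ 12 * r) :
    ∃ k : ℕ, 4 * r < s * 3 ^ k ∧ s * 3 ^ k ≤ 12 * r := by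
  have hex : ∃ k : ℕ, 4 * r < s * 3 ^ k := by
    obtain ⟨k, hk⟩ := pow_unbounded_of_one_lt (4 * r / s) (by norm_num : (1 : ℝ) < 3)
    exact ⟨k, by rw [div_lt_iff₀ hs] at hk; linarith⟩
  classical
  refine ⟨Nat.find hex, Nat.find_spec hex, ?_⟩
  rcases hk : Nat.find hex with _ | k
  · simpa using hsr
  · have h1 : ¬ (4 * r < s * 3 ^ k) := Nat.find_min hex (by omega)
    rw [pow_succ]
    linarith

theorem coord_le (p v : Plane) (i : Fin 2) : |p i - v i| ≤ dist p v := by
  rw [dist_eq_norm]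
  exact PiLp.norm_apply_le (p - v) i

theorem dist_lt_of_coord {p v : Plane} {ρ : ℝ} (hρ : 0 < ρ) (h0 : |p 0 - v 0| < ρ) (h1 : |p 1 - v 1| < ρ) :
    dist p v < 2 * ρ := by
  rw [EuclideanSpace.dist_eq, Fin.sum_univ_two]
  have h2 : Real.sqrt ((2 * ρ) ^ 2) = 2 * ρ := Real.sqrt_sq (by positivity)
  rw [← h2]
  apply Real.sqrt_lt_sqrt (by positivity)
  rw [Real.dist_eq, Real.dist_eq]
  have := abs_nonneg (p 0 - v 0)
  have := abs_nonneg (p 1 - v 1)
  nlinarith

section sep

variable {s : ℝ} {α β : ℕ} {r : Plane → ℝ} {k : Plane → ℕ} {S₀ : Finset Plane}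

/-- The cell of a point at level `l`. -/
noncomputable def cell (s : ℝ) (α β l : ℕ) (p : Plane) : ℤ × ℤ := (q s α l (p 0), q s β l (p 1))

/-- The hypotheses on a family of discs that fit in cells of the grid of type `(α, β)`. -/
structure Fit (s : ℝ) (α β : ℕ) (r : Plane → ℝ) (k : Plane → ℕ) (S₀ : Finset Plane) : Prop where
  hs : 0 < s
  hr : ∀ v ∈ S₀, 0 < r v
  hk : ∀ v ∈ S₀, s * 3 ^ (k v) ≤ 12 * r v
  hα : ∀ v ∈ S₀, q s α (k v) (v 0 - r v) = q s α (k v) (v 0 + r v)
  hβ : ∀ v ∈ S₀, q s β (k v) (v 1 - r v) = q s β (k v) (v 1 + r v)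

theorem Fit.cell_eq (h : Fit s α β r k S₀) {v : Plane} (hv : v ∈ S₀) {l : ℕ} (hl : k v ≤ l) {p : Plane}
    (hp : dist p v ≤ r v) : cell s α β l p = cell s α β l v := by
  have h0 := abs_le.1 ((coord_le p v 0).trans hp)
  have h1 := abs_le.1 ((coord_le p v 1).trans hp)
  have hr := h.hr v hv
  have e0 : q s α (k v) (p 0) = q s α (k v) (v 0) := by
    have a1 := q_mono h.hs α (k v) (show v 0 - r v ≤ p 0 by linarith)
    have a2 := q_mono h.hs α (k v) (show p 0 ≤ v 0 + r v by linarith)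
    have a3 := q_mono h.hs α (k v) (show v 0 - r v ≤ v 0 by linarith)
    have a4 := q_mono h.hs α (k v) (show v 0 ≤ v 0 + r v by linarith)
    have a5 := h.hα v hv
    omega
  have e1 : q s β (k v) (p 1) = q s β (k v) (v 1) := by
    have a1 := q_mono h.hs β (k v) (show v 1 - r v ≤ p 1 by linarith)
    have a2 := q_mono h.hs β (k v) (show p 1 ≤ v 1 + r v by linarith)
    have a3 := q_mono h.hs β (k v) (show v 1 - r v ≤ v 1 by linarith)
    have a4 := q_mono h.hs β (k v) (show v 1 ≤ v 1 + r v by linarith)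
    have a5 := h.hβ v hv
    omega
  simp only [cell]
  rw [q_nest h.hs α hl e0, q_nest h.hs β hl e1]

/-- the large discs that meet one cell are coloured with 196 colours -/
theorem big_color {ρ : ℝ} (hρ : 0 < ρ) (m n : ℤ) (α β : ℕ) (T : Finset Plane)
    (hT : ∀ v ∈ T, ρ ≤ r v)
    (hm : ∀ v ∈ T, ∃ p : Plane, dist p v ≤ r v ∧ ⌊p 0 / (12 * ρ) + (α : ℝ) / 2⌋ = m ∧
      ⌊p 1 / (12 * ρ) + (β : ℝ) / 2⌋ = n) :
    ∃ c : Plane → ℕ, (∀ v ∈ T, c v < 196) ∧
      ∀ u ∈ T, ∀ v ∈ T, dist u v = r u + r v → c u ≠ c v := by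
  classical
  have hex : ∀ v ∈ T, ∃ w : Plane, dist v w ≤ r v - ρ ∧
      12 * (m : ℝ) - 6 * α - 1 ≤ w 0 / ρ ∧ w 0 / ρ < 12 * (m : ℝ) - 6 * α + 13 ∧
      12 * (n : ℝ) - 6 * β - 1 ≤ w 1 / ρ ∧ w 1 / ρ < 12 * (n : ℝ) - 6 * β + 13 := by
    intro v hv
    obtain ⟨p, hp, hp0, hp1⟩ := hm v hv
    have hrv := hT v hv
    have hr0 : 0 < r v := lt_of_lt_of_le hρ hrv
    have hθ1 : ρ / r v ≤ 1 := by rw [div_le_one hr0]; exact hrv
    have hθ0 : 0 < ρ / r v := by positivity
    set w : Plane := p + (ρ / r v) • (v - p) with hw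
    have hvp : ‖v - p‖ ≤ r v := by rw [← dist_eq_norm, dist_comm]; exact hp
    have hd1 : dist v w ≤ r v - ρ := by
      have : v - w = (1 - ρ / r v) • (v - p) := by
        rw [hw]; module
      rw [dist_eq_norm, this, norm_smul, Real.norm_of_nonneg (by linarith)]
      calc (1 - ρ / r v) * ‖v - p‖ ≤ (1 - ρ / r v) * r v := by
            gcongr
        _ = r v - ρ := by field_simp
    have hd2 : dist w p ≤ ρ := by
      have : w - p = (ρ / r v) • (v - p) := by
        rw [hw]; module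
      rw [dist_eq_norm, this, norm_smul, Real.norm_of_nonneg hθ0.le]
      calc ρ / r v * ‖v - p‖ ≤ ρ / r v * r v := by gcongr
        _ = ρ := by field_simp
    have key : ∀ (i : Fin 2) (γ : ℕ) (z : ℤ), ⌊p i / (12 * ρ) + (γ : ℝ) / 2⌋ = z →
        12 * (z : ℝ) - 6 * γ - 1 ≤ w i / ρ ∧ w i / ρ < 12 * (z : ℝ) - 6 * γ + 13 := by
      intro i γ z hz
      rw [Int.floor_eq_iff] at hz
      obtain ⟨hz1, hz2⟩ := hz
      have hc := abs_le.1 ((coord_le w p i).trans hd2)
      have e1 : p i / (12 * ρ) = (p i / ρ) / 12 := by rw [div_div, mul_comm]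
      rw [e1] at hz1 hz2
      have e2 : w i / ρ = p i / ρ + (w i - p i) / ρ := by rw [← add_div]; congr 1; ring
      have e3 : -1 ≤ (w i - p i) / ρ := by rw [le_div_iff₀ hρ]; linarith
      have e4 : (w i - p i) / ρ ≤ 1 := by rw [div_le_iff₀ hρ]; linarith
      rw [e2]
      constructor <;> linarith
    obtain ⟨k1, k2⟩ := key 0 α m hp0
    obtain ⟨k3, k4⟩ := key 1 β n hp1
    exact ⟨w, hd1, k1, k2, k3, k4⟩
  choose! w hw1 hw2 hw3 hw4 hw5 using hex
  have hfl : ∀ v ∈ T, (0 ≤ ⌊w v 0 / ρ⌋ - (12 * m - 6 * α - 1) ∧ ⌊w v 0 / ρ⌋ - (12 * m - 6 * α - 1) < 14) ∧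
      (0 ≤ ⌊w v 1 / ρ⌋ - (12 * n - 6 * β - 1) ∧ ⌊w v 1 / ρ⌋ - (12 * n - 6 * β - 1) < 14) := by
    intro v hv
    have key : ∀ (x : ℝ) (γ : ℕ) (z : ℤ), 12 * (z : ℝ) - 6 * γ - 1 ≤ x → x < 12 * (z : ℝ) - 6 * γ + 13 →
        0 ≤ ⌊x⌋ - (12 * z - 6 * γ - 1) ∧ ⌊x⌋ - (12 * z - 6 * γ - 1) < 14 := by
      intro x γ z h1 h2
      have h3 : 12 * z - 6 * (γ : ℤ) - 1 ≤ ⌊x⌋ := by
        rw [Int.le_floor]; push_cast; exact h1
      have h4 : ⌊x⌋ < 12 * z - 6 * (γ : ℤ) + 13 := by
        rw [Int.floor_lt]; push_cast; exact h2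
      constructor <;> omega
    exact ⟨key _ _ _ (hw2 v hv) (hw3 v hv), key _ _ _ (hw4 v hv) (hw5 v hv)⟩
  refine ⟨fun v => (⌊w v 0 / ρ⌋ - (12 * m - 6 * α - 1)).toNat * 14 +
    (⌊w v 1 / ρ⌋ - (12 * n - 6 * β - 1)).toNat, ?_, ?_⟩
  · intro v hv
    obtain ⟨⟨a1, a2⟩, a3, a4⟩ := hfl v hv
    simp only
    omega
  · intro u hu v hv hadj heq
    obtain ⟨⟨a1, a2⟩, a3, a4⟩ := hfl u hu
    obtain ⟨⟨b1, b2⟩, b3, b4⟩ := hfl v hv
    simp only at heq
    have e0 : ⌊w u 0 / ρ⌋ = ⌊w v 0 / ρ⌋ := by omega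
    have e1 : ⌊w u 1 / ρ⌋ = ⌊w v 1 / ρ⌋ := by omega
    have hco : ∀ x y : ℝ, ⌊x / ρ⌋ = ⌊y / ρ⌋ → |x - y| < ρ := by
      intro x y hxy
      have := Int.abs_sub_lt_one_of_floor_eq_floor hxy
      rw [← sub_div, abs_div, abs_of_pos hρ, div_lt_one hρ] at this
      exact this
    have hd := dist_lt_of_coord hρ (hco _ _ e0) (hco _ _ e1)
    have h1 := hw1 u hu
    have h2 := hw1 v hv
    have h3 : dist u v ≤ dist u (w u) + dist (w u) (w v) + dist (w v) v := dist_triangle4 _ _ _ _
    rw [dist_comm (w v) v] at h3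
    linarith

/-- the common point of two tangent discs -/
theorem tangent_point {u v : Plane} {x y : ℝ} (hx : 0 < x) (hy : 0 < y) (h : dist u v = x + y) :
    ∃ p : Plane, dist p u ≤ x ∧ dist p v ≤ y := by
  refine ⟨AffineMap.lineMap u v (x / (x + y)), ?_, ?_⟩
  · rw [dist_lineMap_left, h, Real.norm_of_nonneg (by positivity)]
    apply le_of_eq
    field_simp
  · rw [dist_lineMap_right, h]
    have : 1 - x / (x + y) = y / (x + y) := by field_simp; ring
    rw [this, Real.norm_of_nonneg (by positivity)]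
    apply le_of_eq
    field_simp

theorem Fit.sep (h : Fit s α β r k S₀) (S : Finset Plane) (hS : S ⊆ S₀) :
    ∃ (X : Plane → Prop) (cX : Plane → ℕ) (L : Type) (f : Plane → L),
      (∀ v ∈ S, X v → cX v < 196) ∧
      (∀ u ∈ S, ∀ v ∈ S, X u → X v → dist u v = r u + r v → cX u ≠ cX v) ∧
      (∀ u ∈ S, ∀ v ∈ S, ¬ X u → ¬ X v → dist u v = r u + r v → f u = f v) ∧
      (∀ i : L, ∀ P : Finset Plane, (∀ v ∈ P, v ∈ S ∧ ¬ X v ∧ f v = i) → 2 * P.card ≤ S.card) := by
  classical
  let W : ℕ → ℤ × ℤ → Finset Plane := fun l Q => S.filter (fun v => k v ≤ l ∧ cell s α β l v = Q)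
  by_cases hex : ∃ l, ∃ Q, S.card < 2 * (W l Q).card
  · -- take the least level of a heavy cell
    obtain ⟨Q, hQ⟩ := Nat.find_spec hex
    set l := Nat.find hex with hl
    have hmin : ∀ l' < l, ∀ Q', 2 * (W l' Q').card ≤ S.card := by
      intro l' hl' Q'
      by_contra hcon
      exact Nat.find_min hex hl' ⟨Q', not_le.1 hcon⟩
    let X : Plane → Prop := fun v => l ≤ k v ∧ ∃ p : Plane, dist p v ≤ r v ∧ cell s α β l p = Q
    obtain ⟨cX, hcX1, hcX2⟩ := big_color (r := r) (ρ := s * 3 ^ l / 12) (by have := h.hs; positivity) Q.1 Q.2 α β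
      (S.filter X) (by
        intro v hv
        rw [Finset.mem_filter] at hv
        have h1 := h.hk v (hS hv.1)
        have h2 : s * 3 ^ l ≤ s * 3 ^ (k v) := by
          have := h.hs
          gcongr
          · norm_num
          · exact hv.2.1
        linarith) (by
        intro v hv
        rw [Finset.mem_filter] at hv
        obtain ⟨hv1, hv2, p, hp, hpQ⟩ := hv
        refine ⟨p, hp, ?_, ?_⟩
        · rw [show 12 * (s * 3 ^ l / 12) = s * 3 ^ l by ring, ← hpQ]; rfl
        · rw [show 12 * (s * 3 ^ l / 12) = s * 3 ^ l by ring, ← hpQ]; rfl)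
    refine ⟨X, cX, Option (ℤ × ℤ), fun v => if cell s α β l v = Q then some (cell s α β (l - 1) v) else none,
      fun v hv hX => hcX1 v (Finset.mem_filter.2 ⟨hv, hX⟩),
      fun u hu v hv hXu hXv => hcX2 u (Finset.mem_filter.2 ⟨hu, hXu⟩) v (Finset.mem_filter.2 ⟨hv, hXv⟩), ?_, ?_⟩
    · intro u hu v hv hXu hXv hadj
      obtain ⟨p, hpu, hpv⟩ := tangent_point (h.hr u (hS hu)) (h.hr v (hS hv)) hadj
      have hY : ∀ v ∈ S, ¬ X v → cell s α β l v = Q → k v ≤ l - 1 ∧ k v ≤ l := by
        intro v hv hXv hQv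
        have : k v < l := by
          by_contra hcon
          exact hXv ⟨not_lt.1 hcon, v, by rw [dist_self]; exact (h.hr v (hS hv)).le, hQv⟩
        omega
      have hZ : ∀ v ∈ S, ¬ X v → cell s α β l v ≠ Q → dist p v ≤ r v → cell s α β l p ≠ Q := by
        intro v hv hXv hQv hp hpQ
        by_cases hkv : l ≤ k v
        · exact hXv ⟨hkv, p, hp, hpQ⟩
        · rw [h.cell_eq (hS hv) (by omega) hp] at hpQ
          exact hQv hpQ
      by_cases hQu : cell s α β l u = Q <;> by_cases hQv : cell s α β l v = Q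
      · simp only [hQu, hQv, if_true]
        have h1 := h.cell_eq (hS hu) (hY u hu hXu hQu).1 hpu
        have h2 := h.cell_eq (hS hv) (hY v hv hXv hQv).1 hpv
        rw [← h1, ← h2]
      · exfalso
        refine hZ v hv hXv hQv hpv ?_
        rw [h.cell_eq (hS hu) (hY u hu hXu hQu).2 hpu]
        exact hQu
      · exfalso
        refine hZ u hu hXu hQu hpu ?_
        rw [h.cell_eq (hS hv) (hY v hv hXv hQv).2 hpv]
        exact hQv
      · simp only [hQu, hQv, if_false]
    · intro i P hP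
      rcases i with _ | Q'
      · -- discs away from the cell
        have hdis : Disjoint P (W l Q) := by
          rw [Finset.disjoint_left]
          intro v hv hvW
          obtain ⟨-, -, hf⟩ := hP v hv
          have hvQ : cell s α β l v = Q := (Finset.mem_filter.1 hvW).2.2
          simp [hvQ] at hf
        have hsub : P ∪ W l Q ⊆ S := by
          intro v hv
          rcases Finset.mem_union.1 hv with hv | hv
          · exact (hP v hv).1
          · exact (Finset.mem_filter.1 hv).1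
        have := Finset.card_le_card hsub
        rw [Finset.card_union_of_disjoint hdis] at this
        omega
      · -- discs inside a child cell
        rcases Nat.eq_zero_or_pos l with hl0 | hl0
        · have hP0 : P = ∅ := by
            rw [Finset.eq_empty_iff_forall_notMem]
            intro v hv
            obtain ⟨hvS, hXv, hf⟩ := hP v hv
            have hvQ : cell s α β l v = Q := by
              by_contra hcon
              simp [hcon] at hf
            exact hXv ⟨by omega, v, by rw [dist_self]; exact (h.hr v (hS hvS)).le, hvQ⟩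
          rw [hP0]; simp
        · have hsub : P ⊆ W (l - 1) Q' := by
            intro v hv
            obtain ⟨hvS, hXv, hf⟩ := hP v hv
            have hvQ : cell s α β l v = Q := by
              by_contra hcon
              simp [hcon] at hf
            simp only [hvQ, if_true, Option.some.injEq] at hf
            have : k v < l := by
              by_contra hcon
              exact hXv ⟨not_lt.1 hcon, v, by rw [dist_self]; exact (h.hr v (hS hvS)).le, hvQ⟩
            exact Finset.mem_filter.2 ⟨hvS, by omega, hf⟩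
          have h1 := Finset.card_le_card hsub
          have h2 := hmin (l - 1) (by omega) Q'
          omega
  · push Not at hex
    refine ⟨fun _ => False, fun _ => 0, ℤ × ℤ, fun v => cell s α β (S.sup k) v, by simp, by simp, ?_, ?_⟩
    · intro u hu v hv _ _ hadj
      obtain ⟨p, hpu, hpv⟩ := tangent_point (h.hr u (hS hu)) (h.hr v (hS hv)) hadj
      simp only
      rw [← h.cell_eq (hS hu) (Finset.le_sup hu) hpu, ← h.cell_eq (hS hv) (Finset.le_sup hv) hpv]
    · intro i P hP
      have hsub : P ⊆ W (S.sup k) i := by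
        intro v hv
        obtain ⟨hvS, -, hf⟩ := hP v hv
        exact Finset.mem_filter.2 ⟨hvS, Finset.le_sup hvS, hf⟩
      have h1 := Finset.card_le_card hsub
      have h2 := hex (S.sup k) i
      omega

end sep

theorem upper {A : Finset Plane} {r : Plane → ℝ} (hr : ∀ a ∈ A, 0 < r a) {t : ℕ} (ht : A.card < 2 ^ t) :
    (tangentGraph A r).Colorable (784 * t) := by
  classical
  rcases A.eq_empty_or_nonempty with hA | hne
  · subst hA
    exact ⟨SimpleGraph.Coloring.mk (fun v => absurd v.2 (Finset.notMem_empty _))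
      (fun {v} => absurd v.2 (Finset.notMem_empty _))⟩
  obtain ⟨a0, ha0, hmin⟩ := A.exists_min_image r hne
  set s := r a0 with hs'
  have hs : 0 < s := hr a0 ha0
  have hlev : ∀ a ∈ A, ∃ k : ℕ, 4 * r a < s * 3 ^ k ∧ s * 3 ^ k ≤ 12 * r a := fun a ha =>
    exists_level hs (by have := hmin a ha; have := hr a ha; linarith)
  choose! k hk1 hk2 using hlev
  have hα : ∀ a ∈ A, ∃ α : ℕ, α < 2 ∧ q s α (k a) (a 0 - r a) = q s α (k a) (a 0 + r a) := fun a ha =>
    q_shift hs (hr a ha) (hk1 a ha) _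
  choose! α hα1 hα2 using hα
  have hβ : ∀ a ∈ A, ∃ β : ℕ, β < 2 ∧ q s β (k a) (a 1 - r a) = q s β (k a) (a 1 + r a) := fun a ha =>
    q_shift hs (hr a ha) (hk1 a ha) _
  choose! β hβ1 hβ2 using hβ
  have hfam : ∀ i j : ℕ, ∃ c : Plane → ℕ, (∀ v ∈ A.filter (fun v => α v = i ∧ β v = j), c v < 196 * t) ∧
      ∀ u ∈ A.filter (fun v => α v = i ∧ β v = j), ∀ v ∈ A.filter (fun v => α v = i ∧ β v = j),
        dist u v = r u + r v → c u ≠ c v := by
    intro i j
    have hfit : Fit s i j r k (A.filter (fun v => α v = i ∧ β v = j)) := by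
      refine ⟨hs, ?_, ?_, ?_, ?_⟩
      · intro v hv; exact hr v (Finset.mem_filter.1 hv).1
      · intro v hv; exact hk2 v (Finset.mem_filter.1 hv).1
      · intro v hv
        obtain ⟨h1, h2, -⟩ := Finset.mem_filter.1 hv
        rw [← h2]; exact hα2 v h1
      · intro v hv
        obtain ⟨h1, -, h2⟩ := Finset.mem_filter.1 hv
        rw [← h2]; exact hβ2 v h1
    exact abstract_color (fun u v => dist u v = r u + r v) 196 _ (fun S hS => hfit.sep S hS) t _
      (Finset.Subset.refl _) (lt_of_le_of_lt (Finset.card_filter_le _ _) ht)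
  choose c hc1 hc2 using hfam
  have hmem : ∀ v : A, (v : Plane) ∈ A.filter (fun w => α w = α v ∧ β w = β v) := fun v =>
    Finset.mem_filter.2 ⟨v.2, rfl, rfl⟩
  have hlt : ∀ v : A, (2 * α v + β v) * (196 * t) + c (α v) (β v) v < 784 * t := by
    intro v
    have h1 := hc1 (α v) (β v) v (hmem v)
    have h2 := hα1 v v.2
    have h3 := hβ1 v v.2
    have h4 : (2 * α v + β v) * (196 * t) ≤ 3 * (196 * t) := Nat.mul_le_mul_right _ (by omega)
    omega
  refine ⟨SimpleGraph.Coloring.mk (fun v => (⟨_, hlt v⟩ : Fin (784 * t))) ?_⟩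
  intro u v hadj heq
  rw [Fin.mk.injEq] at heq
  have h1 := hc1 (α u) (β u) u (hmem u)
  have h2 := hc1 (α v) (β v) v (hmem v)
  have hi : 2 * α u + β u = 2 * α v + β v := by
    have e1 : ((2 * α u + β u) * (196 * t) + c (α u) (β u) u) / (196 * t) = 2 * α u + β u := by
      rw [mul_comm, Nat.mul_add_div (by omega), Nat.div_eq_of_lt h1, add_zero]
    have e2 : ((2 * α v + β v) * (196 * t) + c (α v) (β v) v) / (196 * t) = 2 * α v + β v := by
      rw [mul_comm, Nat.mul_add_div (by omega), Nat.div_eq_of_lt h2, add_zero]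
    rw [← e1, ← e2, heq]
  have hα' : α u = α v := by
    have := hα1 u u.2; have := hα1 v v.2; have := hβ1 u u.2; have := hβ1 v v.2
    omega
  have hβ' : β u = β v := by omega
  rw [hα', hβ'] at heq
  have hu : (u : Plane) ∈ A.filter (fun w => α w = α v ∧ β w = β v) :=
    Finset.mem_filter.2 ⟨u.2, hα', hβ'⟩
  exact hc2 (α v) (β v) u hu v (hmem v) hadj.2 (by omega)

/-- The centre of the disc with diameter from `3 ^ i` to `3 ^ j` on the first axis. -/
noncomputable def ctr (p : ℕ × ℕ) : Plane := !₂[((3 : ℝ) ^ p.1 + 3 ^ p.2) / 2, 0]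

theorem ctr_inj {p p' : ℕ × ℕ} (h : p.1 < p.2) (h' : p'.1 < p'.2) (he : ctr p = ctr p') : p = p' := by
  obtain ⟨i, j⟩ := p
  obtain ⟨k, l⟩ := p'
  simp only at h h'
  have h0 : ((3 : ℝ) ^ i + 3 ^ j) / 2 = (3 ^ k + 3 ^ l) / 2 := by
    have := congrArg (fun x : Plane => x 0) he
    simpa [ctr] using this
  have h1 : 3 ^ i + 3 ^ j = 3 ^ k + 3 ^ l := by
    have : ((3 : ℝ) ^ i + 3 ^ j) = (3 ^ k + 3 ^ l) := by linarith
    exact_mod_cast this
  have a1 : 3 ^ i < 3 ^ j := Nat.pow_lt_pow_right (by norm_num) h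
  have a2 : 3 ^ k < 3 ^ l := Nat.pow_lt_pow_right (by norm_num) h'
  have a3 : 0 < 3 ^ i := by positivity
  have a4 : 0 < 3 ^ k := by positivity
  have hjl : j = l := by
    rcases lt_trichotomy j l with hlt | heq | hlt
    · have : 3 ^ (j + 1) ≤ 3 ^ l := Nat.pow_le_pow_right (by norm_num) hlt
      rw [pow_succ] at this
      omega
    · exact heq
    · have : 3 ^ (l + 1) ≤ 3 ^ j := Nat.pow_le_pow_right (by norm_num) hlt
      rw [pow_succ] at this
      omega
  subst hjl
  have hik : 3 ^ i = 3 ^ k := by omega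
  have := Nat.pow_right_injective (le_refl 2 |>.trans (by norm_num)) hik
  rw [this]

open Classical in
/-- The radii in the construction. -/
noncomputable def rad (a : Plane) : ℝ :=
  if h : ∃ p : ℕ × ℕ, p.1 < p.2 ∧ ctr p = a then ((3 : ℝ) ^ h.choose.2 - 3 ^ h.choose.1) / 2 else 1

theorem rad_ctr {p : ℕ × ℕ} (hp : p.1 < p.2) : rad (ctr p) = ((3 : ℝ) ^ p.2 - 3 ^ p.1) / 2 := by
  have h : ∃ p' : ℕ × ℕ, p'.1 < p'.2 ∧ ctr p' = ctr p := ⟨p, hp, rfl⟩
  rw [rad, dif_pos h]
  have := ctr_inj h.choose_spec.1 hp h.choose_spec.2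
  rw [this]

theorem rad_pos (a : Plane) : 0 < rad a := by
  rw [rad]
  split_ifs with h
  · have h1 := h.choose_spec.1
    have h2 : (3 : ℝ) ^ h.choose.1 < 3 ^ h.choose.2 := pow_lt_pow_right₀ (by norm_num) h1
    linarith
  · norm_num

theorem lower (n : ℕ) : ∃ A : Finset Plane, A.card = n ∧
    ∀ K, (tangentGraph A rad).Colorable K → Nat.sqrt n + 1 ≤ 2 ^ K := by
  classical
  set m := Nat.sqrt n + 1 with hm
  let I : Finset (ℕ × ℕ) := ((Finset.range m).sigma (fun j => Finset.range j)).image (fun x => (x.2, x.1))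
  have hI : ∀ i j : ℕ, i < j → j < m → (i, j) ∈ I := by
    intro i j h1 h2
    exact Finset.mem_image.2 ⟨⟨j, i⟩, Finset.mem_sigma.2 ⟨Finset.mem_range.2 h2, Finset.mem_range.2 h1⟩, rfl⟩
  have hcard : (I.image ctr).card ≤ n := by
    have h1 : (I.image ctr).card ≤ ∑ j ∈ Finset.range m, j := by
      refine Finset.card_image_le.trans (Finset.card_image_le.trans ?_)
      rw [Finset.card_sigma]
      simp
    have h2 := Finset.sum_range_id_mul_two m
    have h3 : Nat.sqrt n * Nat.sqrt n ≤ n := Nat.sqrt_le n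
    have h4 : m * (m - 1) ≤ 2 * n := by
      rw [hm, Nat.add_sub_cancel]
      have : Nat.sqrt n ≤ Nat.sqrt n * Nat.sqrt n := Nat.le_mul_self _
      nlinarith
    omega
  obtain ⟨A, hsub, hA⟩ := Infinite.exists_superset_card_eq (I.image ctr) n hcard
  refine ⟨A, hA, ?_⟩
  rintro K ⟨C⟩
  have hmem : ∀ i j : ℕ, i < j → j < m → ctr (i, j) ∈ A := fun i j h1 h2 =>
    hsub (Finset.mem_image_of_mem _ (hI i j h1 h2))
  let F : ℕ → Finset (Fin K) := fun i => Finset.univ.filter
    (fun c => ∃ j, i < j ∧ j < m ∧ ∃ h : ctr (i, j) ∈ A, C ⟨ctr (i, j), h⟩ = c)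
  have hadj : ∀ i j l : ℕ, i < j → j < l → ∀ (h1 : ctr (i, j) ∈ A) (h2 : ctr (j, l) ∈ A),
      (tangentGraph A rad).Adj ⟨ctr (i, j), h1⟩ ⟨ctr (j, l), h2⟩ := by
    intro i j l hij hjl h1 h2
    refine ⟨?_, ?_⟩
    · intro he
      have := ctr_inj (p := (i, j)) (p' := (j, l)) hij hjl (congrArg Subtype.val he)
      simp only [Prod.mk.injEq] at this
      omega
    · simp only
      rw [rad_ctr (p := (i, j)) hij, rad_ctr (p := (j, l)) hjl, EuclideanSpace.dist_eq, Fin.sum_univ_two]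
      have e1 : (3 : ℝ) ^ i < 3 ^ j := pow_lt_pow_right₀ (by norm_num) hij
      have e2 : (3 : ℝ) ^ j < 3 ^ l := pow_lt_pow_right₀ (by norm_num) hjl
      have e3 : dist ((ctr (i, j)) 0) ((ctr (j, l)) 0) = ((3 : ℝ) ^ l - 3 ^ i) / 2 := by
        rw [Real.dist_eq]
        have : (ctr (i, j)) 0 - (ctr (j, l)) 0 = -(((3 : ℝ) ^ l - 3 ^ i) / 2) := by
          simp only [ctr]
          simp
          ring
        rw [this, abs_neg, abs_of_pos (by linarith)]
      have e4 : dist ((ctr (i, j)) 1) ((ctr (j, l)) 1) = 0 := by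
        simp [ctr]
      rw [e3, e4]
      simp only [ne_eq, OfNat.ofNat_ne_zero, not_false_eq_true, zero_pow, add_zero]
      rw [Real.sqrt_sq (by linarith)]
      ring
  have hinj : ∀ i j : ℕ, i < j → j < m → F i ≠ F j := by
    intro i j hij hj heq
    have h1 : C ⟨ctr (i, j), hmem i j hij hj⟩ ∈ F i :=
      Finset.mem_filter.2 ⟨Finset.mem_univ _, j, hij, hj, hmem i j hij hj, rfl⟩
    rw [heq] at h1
    obtain ⟨-, l, hjl, hl, h2, h3⟩ := Finset.mem_filter.1 h1
    exact C.valid (hadj i j l hij hjl (hmem i j hij hj) h2) h3.symm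
  have hcard2 : m ≤ (Finset.univ : Finset (Finset (Fin K))).card := by
    calc m = (Finset.range m).card := (Finset.card_range m).symm
      _ ≤ _ := Finset.card_le_card_of_injOn F (fun _ _ => Finset.mem_coe.2 (Finset.mem_univ _)) (by
        intro i hi j hj he
        rw [Finset.mem_coe, Finset.mem_range] at hi hj
        rcases lt_trichotomy i j with h | h | h
        · exact absurd he (hinj i j h hj)
        · exact h
        · exact absurd he.symm (hinj j i h hi))
  rw [Finset.card_univ, Fintype.card_finset, Fintype.card_fin] at hcard2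
  exact hcard2

/-- The largest chromatic number of a tangent graph of `n` discs is of order `log n`. -/
theorem result : ∃ c C : ℝ, 0 < c ∧ 0 < C ∧ ∀ n : ℕ, 2 ≤ n →
    ∃ k : ℕ, chi n = k ∧ c * Real.log n ≤ k ∧ (k : ℝ) ≤ C * Real.log n := by
  have hl2 : 0 < Real.log 2 := Real.log_pos (by norm_num)
  refine ⟨1 / (2 * Real.log 2), 1568 / Real.log 2, by positivity, by positivity, ?_⟩
  intro n hn
  have hub : chi n ≤ ((784 * (Nat.log 2 n + 1) : ℕ) : ℕ∞) := by
    unfold chi
    refine iSup_le fun A => iSup_le fun r => iSup_le fun hA => iSup_le fun hr => ?_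
    exact (upper hr (by rw [hA]; exact Nat.lt_pow_succ_log_self (by norm_num) n)).chromaticNumber_le
  obtain ⟨k, hk⟩ : ∃ k : ℕ, chi n = k := by
    have h : chi n ≠ ⊤ := ne_top_of_le_ne_top (ENat.natCast_ne_top _) hub
    exact ⟨(chi n).toNat, (ENat.natCast_toNat h).symm⟩
  refine ⟨k, hk, ?_, ?_⟩
  · obtain ⟨A, hA, hlow⟩ := lower n
    have h1 : (tangentGraph A rad).chromaticNumber ≤ k := by
      rw [← hk]
      unfold chi
      exact le_iSup_of_le A (le_iSup_of_le rad (le_iSup_of_le hA (le_iSup_of_le (fun a _ => rad_pos a) le_rfl)))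
    have h2 : (tangentGraph A rad).Colorable k := SimpleGraph.chromaticNumber_le_iff_colorable.1 h1
    have h3 := hlow k h2
    have h4 : n < (Nat.sqrt n + 1) * (Nat.sqrt n + 1) := Nat.lt_succ_sqrt n
    have h5 : n ≤ 2 ^ (2 * k) := by
      have : (Nat.sqrt n + 1) * (Nat.sqrt n + 1) ≤ 2 ^ k * 2 ^ k := Nat.mul_le_mul h3 h3
      rw [two_mul, pow_add]
      omega
    have h6 : (n : ℝ) ≤ 2 ^ (2 * k) := by exact_mod_cast h5
    have h7 : Real.log n ≤ (2 * k) * Real.log 2 := by
      have := Real.log_le_log (by positivity) h6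
      rw [Real.log_pow] at this
      push_cast at this
      exact this
    rw [div_mul_eq_mul_div, one_mul, div_le_iff₀ (by positivity)]
    linarith
  · have h1 : k ≤ 784 * (Nat.log 2 n + 1) := by
      rw [hk] at hub
      exact_mod_cast hub
    have h2 : (Nat.log 2 n : ℝ) ≤ Real.log n / Real.log 2 := by
      have := Real.natLog_le_logb n 2
      rw [Real.logb] at this
      exact_mod_cast this
    have h3 : (1 : ℝ) ≤ Real.log n / Real.log 2 := by
      rw [le_div_iff₀ hl2, one_mul]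
      exact Real.log_le_log (by norm_num) (by exact_mod_cast hn)
    have h4 : (k : ℝ) ≤ 784 * (Nat.log 2 n + 1) := by exact_mod_cast h1
    calc (k : ℝ) ≤ 784 * (Nat.log 2 n + 1) := h4
      _ ≤ 784 * (Real.log n / Real.log 2 + Real.log n / Real.log 2) := by gcongr
      _ = 1568 / Real.log 2 * Real.log n := by ring

end Pool.Agent.Results.MP_af9f8b_co.ChromaticOrder
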